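import Pool.Agent.Helper88.PP.Pay

set_option autoImplicit false

/-!
MP_120218_co, theorem ONE: one-scale form for the product sets of a set of integers.
-/

open Finset
open Pool.Agent.Helper84.SP
open Pool.Agent.Helper88.TL
open Pool.Agent.Helper80.LL
open Pool.Agent.Helper88.PP

namespace Pool.Agent.Helper88.ONE

theorem OneScale_kprod_add {A : Finset ℤ} {i j : ℕ} {s t : ℤ} (hs : s ∈ kprod A i)
    (ht : t ∈ kprod A j) : s * t ∈ kprod A (i + j) := by
  unfold kprod at hs ht ⊢
  obtain ⟨f, hf, rfl⟩ := mem_image.1 hs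
  obtain ⟨g, hg, rfl⟩ := mem_image.1 ht
  rw [Fintype.mem_piFinset] at hf hg
  refine mem_image.2 ⟨Fin.append f g, ?_, ?_⟩
  · rw [Fintype.mem_piFinset]
    intro l
    refine Fin.addCases (fun a => ?_) (fun b => ?_) l
    · rw [Fin.append_left]
      exact hf a
    · rw [Fin.append_right]
      exact hg b
  · rw [Fin.prod_univ_add]
    simp only [Fin.append_left, Fin.append_right]

theorem OneScale_card_mono {A : Finset ℤ} {a : ℤ} (ha : a ∈ A) (ha0 : a ≠ 0) {i j : ℕ}
    (hij : i ≤ j) : (kprod A i).card ≤ (kprod A j).card := by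
  refine monotone_nat_of_le_succ (f := fun j => (kprod A j).card) (fun h => ?_) hij
  apply card_le_card_of_injOn (fun s => s * a)
  · intro s hs
    exact kprod_succ hs ha
  · intro x _ y _ hxy
    exact mul_right_cancel₀ ha0 hxy

/-- the exponent vectors of the non-zero elements of `B` -/
noncomputable def expo (B : Finset ℤ) : Finset (ℕ →₀ ℤ) :=
  (B.erase 0).image (fun z : ℤ => be z.natAbs)

theorem mem_expo {B : Finset ℤ} {z : ℤ} (hz : z ∈ B) (h0 : z ≠ 0) : be z.natAbs ∈ expo B :=
  mem_image_of_mem (fun z : ℤ => be z.natAbs) (mem_erase.2 ⟨h0, hz⟩)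

theorem expo_card_le (B : Finset ℤ) : (expo B).card ≤ B.card :=
  card_image_le.trans (card_erase_le)

theorem card_le_expo {B : Finset ℤ} (hB : (expo B).Nonempty) : B.card ≤ 3 * (expo B).card := by
  have h1 : (B.erase 0).card ≤ 2 * (expo B).card := by
    refine card_le_mul_card_image (B.erase 0) 2 ?_
    intro b hb
    obtain ⟨z, hz, rfl⟩ := mem_image.1 hb
    have h2 : (B.erase 0).filter (fun a : ℤ => be a.natAbs = be z.natAbs) ⊆ {z, -z} := by
      intro a ha
      obtain ⟨ha1, ha2⟩ := mem_filter.1 ha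
      have ha0 : a ≠ 0 := (mem_erase.1 ha1).1
      have hz0 : z ≠ 0 := (mem_erase.1 hz).1
      have h3 := be_inj (Int.natAbs_ne_zero.2 ha0) (Int.natAbs_ne_zero.2 hz0) ha2
      rw [mem_insert, mem_singleton]
      omega
    exact (card_le_card h2).trans card_le_two
  have h2 : B.card ≤ (B.erase 0).card + 1 := by
    rw [← Nat.sub_le_iff_le_add]
    exact pred_card_le_card_erase
  have h3 := card_pos.2 hB
  omega

/-- One-scale form: at every scale `j`, passing from `A^j` to `A^(2j)` gains a constant fraction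
of the complementary defect of the positive half of `A`. -/
theorem oneScale {A : Finset ℤ} {A' : Finset ℕ} {e : ℤ} (hne : A'.Nonempty)
    (hpos : ∀ y ∈ A', 0 < y) (he : e = 1 ∨ e = -1) (hA : ∀ y ∈ A', e * (y : ℤ) ∈ A)
    {ps : List ℕ} (hps : ∀ q ∈ ps, q.Prime)
    (hsep : ∀ y ∈ A', ∀ y' ∈ A',
      (∀ q ∈ ps, y.factorization q = y'.factorization q) → y = y')
    {j : ℕ} (hj : 1 ≤ j) :
    (Real.log A'.card - Psi ps A' / A'.card) / 32000000 ≤
      Real.log (kprod A (2 * j)).card - Real.log (kprod A j).card + Real.log 3 := by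
  have he0 : e ≠ 0 := by
    rcases he with rfl | rfl <;> norm_num
  have heabs : e.natAbs = 1 := by
    rcases he with rfl | rfl <;> rfl
  -- a non-zero element of `A`
  obtain ⟨y0, hy0⟩ := hne
  have ha := hA y0 hy0
  have ha0 : e * (y0 : ℤ) ≠ 0 :=
    mul_ne_zero he0 (by exact_mod_cast (hpos y0 hy0).ne')
  have hne : A'.Nonempty := ⟨y0, hy0⟩
  -- the exponent vectors of `A^j`
  have hZ : (expo (kprod A j)).Nonempty := by
    obtain ⟨s, hs⟩ := it_nonempty (α := be) hne j
    obtain ⟨n, hn0, _, hn⟩ := it_be_subset hpos hA j s hs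
    have h1 : e ^ j * (n : ℤ) ≠ 0 :=
      mul_ne_zero (pow_ne_zero _ he0) (by exact_mod_cast hn0.ne')
    exact ⟨_, mem_expo hn h1⟩
  have h2 : (expo (kprod A (2 * j))).card ≤ (kprod A (2 * j)).card := expo_card_le _
  have hZZ : sset (fun g : ℕ →₀ ℤ => g) (expo (kprod A j)) (expo (kprod A j)) ⊆
      expo (kprod A (2 * j)) := by
    intro g hg
    unfold sset at hg
    obtain ⟨z, hz, rfl⟩ := mem_image.1 hg
    obtain ⟨hz1, hz2⟩ := mem_product.1 hz
    obtain ⟨a, ha, ha'⟩ := mem_image.1 hz1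
    obtain ⟨b, hb, hb'⟩ := mem_image.1 hz2
    obtain ⟨ha0, ha1⟩ := mem_erase.1 ha
    obtain ⟨hb0, hb1⟩ := mem_erase.1 hb
    have h3 := OneScale_kprod_add ha1 hb1
    rw [← two_mul] at h3
    have h4 := mem_expo h3 (mul_ne_zero ha0 hb0)
    rw [Int.natAbs_mul, be_mul (Int.natAbs_ne_zero.2 ha0) (Int.natAbs_ne_zero.2 hb0)] at h4
    rw [← ha', ← hb']
    exact h4
  have hZA : sset be (expo (kprod A j)) A' ⊆ expo (kprod A (j + 1)) := by
    intro g hg
    unfold sset at hg
    obtain ⟨z, hz, rfl⟩ := mem_image.1 hg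
    obtain ⟨hz1, hz2⟩ := mem_product.1 hz
    obtain ⟨a, ha, ha'⟩ := mem_image.1 hz1
    obtain ⟨ha0, ha1⟩ := mem_erase.1 ha
    have hy : z.2 ≠ 0 := (hpos _ hz2).ne'
    have h3 := kprod_succ ha1 (hA _ hz2)
    have h4 := mem_expo h3
      (mul_ne_zero ha0 (mul_ne_zero he0 (by exact_mod_cast hy)))
    rw [Int.natAbs_mul, Int.natAbs_mul, heabs, one_mul, Int.natAbs_natCast,
      be_mul (Int.natAbs_ne_zero.2 ha0) hy] at h4
    rw [← ha']
    exact h4
  -- cardinalities
  have hZp : (0 : ℝ) < (expo (kprod A j)).card := by exact_mod_cast card_pos.2 hZ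
  have hjp : (0 : ℝ) < (kprod A j).card := by
    exact_mod_cast card_kprod_pos ⟨_, ha⟩ j
  have c1 : Real.log (kprod A j).card ≤ Real.log 3 + Real.log (expo (kprod A j)).card := by
    rw [← Real.log_mul (by norm_num) hZp.ne']
    apply Real.log_le_log hjp
    exact_mod_cast card_le_expo hZ
  have c2 : Real.log (sset (fun g : ℕ →₀ ℤ => g) (expo (kprod A j)) (expo (kprod A j))).card ≤
      Real.log (kprod A (2 * j)).card := by
    apply Real.log_le_log
    · exact_mod_cast lt_of_lt_of_le (card_pos.2 hZ) (sset_card_ge hZ)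
    · exact_mod_cast (card_le_card hZZ).trans (expo_card_le _)
  have c3 : Real.log (sset be (expo (kprod A j)) A').card ≤ Real.log (kprod A (2 * j)).card := by
    apply Real.log_le_log
    · exact_mod_cast lt_of_lt_of_le (card_pos.2 hZ) (sset_card_ge hne)
    · exact_mod_cast ((card_le_card hZA).trans (expo_card_le _)).trans
        (OneScale_card_mono ha ha0 (by omega))
  have k1 := pay hps hne hpos hsep hZ hZ
  have k2 := I_le (α := be) hZ hne
  have k3 := I_le (α := fun g : ℕ →₀ ℤ => g) hZ hZ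
  unfold dd I2 at k1
  linarith

end Pool.Agent.Helper88.ONE
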