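import Pool.Agent.Helper88.ONE.SixPos

set_option autoImplicit false

/-!
MP_120218_co: one number bounds the growth of sums and products. Finite sets of integers.
-/

open Finset
open Pool.Agent.Helper84.SP
open Pool.Agent.Helper80.LL
open Pool.Agent.Helper88.PP
open Pool.Agent.Helper88.TL
open Pool.Agent.Helper2.LD

namespace Pool.Agent.Helper88.ONE

/-- the set of the sums `x + y` -/
def ssum (X Y : Finset ℤ) : Finset ℤ := (X ×ˢ Y).image (fun p : ℤ × ℤ => p.1 + p.2)

/-- the set of the products `x y` -/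
def sprod (X Y : Finset ℤ) : Finset ℤ := (X ×ˢ Y).image (fun p : ℤ × ℤ => p.1 * p.2)

theorem ssum_card_left {X Y : Finset ℤ} (hY : Y.Nonempty) : X.card ≤ (ssum X Y).card := by
  obtain ⟨y, hy⟩ := hY
  apply card_le_card_of_injOn (fun x => x + y)
  · intro x hx
    exact mem_image.2 ⟨(x, y), mem_product.2 ⟨hx, hy⟩, rfl⟩
  · intro a _ b _ hab
    exact add_right_cancel hab

theorem ssum_card_right {X Y : Finset ℤ} (hX : X.Nonempty) : Y.card ≤ (ssum X Y).card := by
  obtain ⟨x, hx⟩ := hX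
  apply card_le_card_of_injOn (fun y => x + y)
  · intro y hy
    exact mem_image.2 ⟨(x, y), mem_product.2 ⟨hx, hy⟩, rfl⟩
  · intro a _ b _ hab
    exact add_left_cancel hab

/-- `X` multiplied by the sign `e` -/
def sgn (e : ℤ) (X : Finset ℤ) : Finset ℤ := X.image (fun x => e * x)

theorem sgn_card {e : ℤ} (he : e = 1 ∨ e = -1) (X : Finset ℤ) : (sgn e X).card = X.card := by
  apply card_image_of_injective
  intro a b hab
  have he0 : e ≠ 0 := by
    rcases he with rfl | rfl <;> norm_num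
  exact mul_left_cancel₀ he0 hab

theorem sgn_sset_al {A : Finset ℤ} {A' : Finset ℕ} {e : ℤ} (he : e = 1 ∨ e = -1)
    (hA : ∀ y ∈ A', e * (y : ℤ) ∈ A) (X : Finset ℤ) :
    (sset al (sgn e X) A').card ≤ (ssum X A).card := by
  rw [← sgn_card he (ssum X A)]
  apply card_le_card
  intro g hg
  unfold sset at hg
  obtain ⟨z, hz, rfl⟩ := mem_image.1 hg
  obtain ⟨hz1, hz2⟩ := mem_product.1 hz
  obtain ⟨x, hx, hx'⟩ := mem_image.1 hz1
  refine mem_image.2 ⟨x + e * (z.2 : ℤ), mem_image.2 ⟨(x, e * (z.2 : ℤ)),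
    mem_product.2 ⟨hx, hA _ hz2⟩, rfl⟩, ?_⟩
  change e * (x + e * (z.2 : ℤ)) = z.1 + (z.2 : ℤ)
  rw [← hx']
  rcases he with rfl | rfl <;> ring

theorem sgn_sset_id {e : ℤ} (he : e = 1 ∨ e = -1) (X : Finset ℤ) :
    (sset (fun g : ℤ => g) (sgn e X) (sgn e X)).card ≤ (ssum X X).card := by
  rw [← sgn_card he (ssum X X)]
  apply card_le_card
  intro g hg
  unfold sset at hg
  obtain ⟨z, hz, rfl⟩ := mem_image.1 hg
  obtain ⟨hz1, hz2⟩ := mem_product.1 hz
  obtain ⟨x, hx, hx'⟩ := mem_image.1 hz1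
  obtain ⟨y, hy, hy'⟩ := mem_image.1 hz2
  refine mem_image.2 ⟨x + y, mem_image.2 ⟨(x, y), mem_product.2 ⟨hx, hy⟩, rfl⟩, ?_⟩
  change e * (x + y) = z.1 + z.2
  rw [← hx', ← hy']
  ring

theorem expo_sset_be {A : Finset ℤ} {A' : Finset ℕ} {e : ℤ} (hpos : ∀ y ∈ A', 0 < y)
    (he : e = 1 ∨ e = -1) (hA : ∀ y ∈ A', e * (y : ℤ) ∈ A) (Z : Finset ℤ) :
    sset be (expo Z) A' ⊆ expo (sprod Z A) := by
  have he0 : e ≠ 0 := by
    rcases he with rfl | rfl <;> norm_num
  have heabs : e.natAbs = 1 := by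
    rcases he with rfl | rfl <;> rfl
  intro g hg
  unfold sset at hg
  obtain ⟨z, hz, rfl⟩ := mem_image.1 hg
  obtain ⟨hz1, hz2⟩ := mem_product.1 hz
  obtain ⟨a, ha, ha'⟩ := mem_image.1 hz1
  obtain ⟨ha0, ha1⟩ := mem_erase.1 ha
  have hy : z.2 ≠ 0 := (hpos _ hz2).ne'
  have h3 : a * (e * (z.2 : ℤ)) ∈ sprod Z A :=
    mem_image.2 ⟨(a, e * (z.2 : ℤ)), mem_product.2 ⟨ha1, hA _ hz2⟩, rfl⟩
  have h4 := mem_expo h3
    (mul_ne_zero ha0 (mul_ne_zero he0 (by exact_mod_cast hy)))
  rw [Int.natAbs_mul, Int.natAbs_mul, heabs, one_mul, Int.natAbs_natCast,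
    be_mul (Int.natAbs_ne_zero.2 ha0) hy] at h4
  rw [← ha']
  exact h4

theorem expo_sset_id (Z : Finset ℤ) :
    sset (fun g : ℕ →₀ ℤ => g) (expo Z) (expo Z) ⊆ expo (sprod Z Z) := by
  intro g hg
  unfold sset at hg
  obtain ⟨z, hz, rfl⟩ := mem_image.1 hg
  obtain ⟨hz1, hz2⟩ := mem_product.1 hz
  obtain ⟨a, ha, ha'⟩ := mem_image.1 hz1
  obtain ⟨b, hb, hb'⟩ := mem_image.1 hz2
  obtain ⟨ha0, ha1⟩ := mem_erase.1 ha
  obtain ⟨hb0, hb1⟩ := mem_erase.1 hb
  have h3 : a * b ∈ sprod Z Z := mem_image.2 ⟨(a, b), mem_product.2 ⟨ha1, hb1⟩, rfl⟩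
  have h4 := mem_expo h3 (mul_ne_zero ha0 hb0)
  rw [Int.natAbs_mul, be_mul (Int.natAbs_ne_zero.2 ha0) (Int.natAbs_ne_zero.2 hb0)] at h4
  rw [← ha', ← hb']
  exact h4

/-- sums with an arbitrary set `X`, logarithmic form -/
theorem sum_scale {A : Finset ℤ} {A' : Finset ℕ} {e : ℤ} (he : e = 1 ∨ e = -1)
    (hA : ∀ y ∈ A', e * (y : ℤ) ∈ A) (hne : A'.Nonempty) {K : ℝ} {X : Finset ℤ}
    (hX : X.Nonempty) {lam : ℝ}
    (h : K ≤ 8000000 * (I al (sgn e X) A' + I al (sgn e X) A' + dd (sgn e X) (sgn e X)) +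
      2 * lam * Real.log (sgn e X).card +
        Real.log (576 / lam ^ 2) * ((Q0 (100 / lam) : ℝ) + 1)) :
    K ≤ 16000000 * ((Real.log (ssum X A).card - Real.log X.card) +
      (Real.log (ssum X X).card - Real.log X.card)) + 2 * lam * Real.log X.card +
        Real.log (576 / lam ^ 2) * ((Q0 (100 / lam) : ℝ) + 1) := by
  have hX' : (sgn e X).Nonempty := hX.image _
  have h1 := I_le (α := al) hX' hne
  have h2 := I_le (α := fun g : ℤ => g) hX' hX'
  have h3 : Real.log (sset al (sgn e X) A').card ≤ Real.log (ssum X A).card := by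
    apply Real.log_le_log
    · exact_mod_cast lt_of_lt_of_le (card_pos.2 hX') (sset_card_ge hne)
    · exact_mod_cast sgn_sset_al he hA X
  have h4 : Real.log (sset (fun g : ℤ => g) (sgn e X) (sgn e X)).card ≤
      Real.log (ssum X X).card := by
    apply Real.log_le_log
    · exact_mod_cast lt_of_lt_of_le (card_pos.2 hX') (sset_card_ge hX')
    · exact_mod_cast sgn_sset_id he X
  rw [sgn_card he] at h h1 h2
  unfold dd I2 at h
  linarith

/-- products with an arbitrary set `Z`, logarithmic form -/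
theorem prod_scale {A : Finset ℤ} {A' : Finset ℕ} {e : ℤ} (hpos : ∀ y ∈ A', 0 < y)
    (he : e = 1 ∨ e = -1) (hA : ∀ y ∈ A', e * (y : ℤ) ∈ A) (hne : A'.Nonempty) {K : ℝ}
    {Z : Finset ℤ} (hZ : ∃ z ∈ Z, z ≠ 0)
    (h : K ≤ 8000000 * (I be (expo Z) A' + I be (expo Z) A' + dd (expo Z) (expo Z))) :
    K ≤ 16000000 * (Real.log (sprod Z A).card + Real.log (sprod Z Z).card + 2 * Real.log 3 -
      2 * Real.log Z.card) := by
  obtain ⟨z, hz, hz0⟩ := hZ
  have hE : (expo Z).Nonempty := ⟨_, mem_expo hz hz0⟩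
  have h1 := I_le (α := be) hE hne
  have h2 := I_le (α := fun g : ℕ →₀ ℤ => g) hE hE
  have h3 : Real.log (sset be (expo Z) A').card ≤ Real.log (sprod Z A).card := by
    apply Real.log_le_log
    · exact_mod_cast lt_of_lt_of_le (card_pos.2 hE) (sset_card_ge hne)
    · exact_mod_cast (card_le_card (expo_sset_be hpos he hA Z)).trans (expo_card_le _)
  have h4 : Real.log (sset (fun g : ℕ →₀ ℤ => g) (expo Z) (expo Z)).card ≤
      Real.log (sprod Z Z).card := by
    apply Real.log_le_log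
    · exact_mod_cast lt_of_lt_of_le (card_pos.2 hE) (sset_card_ge hE)
    · exact_mod_cast (card_le_card (expo_sset_id Z)).trans (expo_card_le _)
  have hp : (0 : ℝ) < (expo Z).card := by exact_mod_cast card_pos.2 hE
  have hZp : (0 : ℝ) < Z.card := by exact_mod_cast card_pos.2 ⟨z, hz⟩
  have h5 : Real.log Z.card ≤ Real.log 3 + Real.log (expo Z).card := by
    rw [← Real.log_mul (by norm_num) hp.ne']
    apply Real.log_le_log hZp
    exact_mod_cast card_le_expo hE
  unfold dd I2 at h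
  linarith

/-- one number `s` bounds the growth of all iterated sumsets and product sets, and of the sums
and products with arbitrary sets -/
theorem six : ∃ c C : ℝ, 0 < c ∧ 0 < C ∧ ∀ A : Finset ℤ, 16 ≤ A.card →
    ∃ s : ℝ, 0 ≤ s ∧ s ≤ 1 ∧
      (∀ h : ℕ, 1 ≤ h → (h : ℝ) ≤ Real.log A.card →
        (A.card : ℝ) ^ (1 + c * (s - C / Real.log (Real.log A.card)) * Real.log h) ≤
          ((hsum A h).card : ℝ)) ∧
      (∀ h : ℕ, 1 ≤ h →
        ((A.card : ℝ) / 4) ^ ((h : ℝ) * (1 - C * (1 - s) * Real.log (h / (1 - s)))) ≤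
          ((hsum A h).card : ℝ)) ∧
      (∀ k : ℕ, 1 ≤ k →
        ((A.card : ℝ) / 4) ^ (1 + c * (1 - s) * Real.log k) ≤ ((kprod A k).card : ℝ)) ∧
      (∀ k : ℕ, 2 ≤ k →
        ((A.card : ℝ) / 4) ^ ((k : ℝ) * (1 - C * s * Real.log k)) ≤
          ((kprod A k).card : ℝ)) ∧
      (∀ X : Finset ℤ, X.Nonempty →
        (X.card : ℝ) ≤ (A.card : ℝ) ^ (c * s * Real.log (Real.log A.card)) →
        (X.card : ℝ) ^ 2 * (A.card : ℝ) ^ (c * s) ≤
          ((ssum X A).card : ℝ) * (ssum X X).card) ∧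
      (∀ Z : Finset ℤ, (∃ z ∈ Z, z ≠ 0) →
        (Z.card : ℝ) ^ 2 * ((A.card : ℝ) / 4) ^ (c * (1 - s)) ≤
          9 * (((sprod Z A).card : ℝ) * (sprod Z Z).card)) := by
  refine ⟨1 / 64000000 / 8, 1024000000, by norm_num, by norm_num, ?_⟩
  intro A hA16
  have hA : A.Nonempty := card_pos.1 (by omega)
  have h0 : (0 : ℤ) ∉ A.erase 0 := by simp
  obtain ⟨A', e, hA'pos, he, hA', hcard⟩ := signed (A.erase 0) h0
  have hcard1 : A.card ≤ (A.erase 0).card + 1 := by
    have := pred_card_le_card_erase (s := A) (a := (0 : ℤ))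
    omega
  have hcard2 : A.card ≤ 4 * A'.card := by omega
  have hcard2' : (A.card : ℝ) ≤ 4 * A'.card := by exact_mod_cast hcard2
  have hcard4 : 4 ≤ A'.card := by omega
  have hA'ne : A'.Nonempty := card_pos.1 (by omega)
  have hA'' : ∀ y ∈ A', e * (y : ℤ) ∈ A := fun y hy => (mem_erase.1 (hA' y hy)).2
  have pA : (0 : ℝ) < A.card := by exact_mod_cast card_pos.2 hA
  have pA' : (0 : ℝ) < A'.card := by exact_mod_cast card_pos.2 hA'ne
  have hA16' : (16 : ℝ) ≤ A.card := by exact_mod_cast hA16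
  obtain ⟨L, hLdef⟩ : ∃ L, L = Real.log A.card := ⟨_, rfl⟩
  obtain ⟨L', hL'def⟩ : ∃ L', L' = Real.log A'.card := ⟨_, rfl⟩
  obtain ⟨Lb, hLb⟩ : ∃ Lb, Lb = Real.log ((A.card : ℝ) / 4) := ⟨_, rfl⟩
  have hL' : L ≤ L' + Real.log 4 := by
    rw [hLdef, hL'def, ← Real.log_mul pA'.ne' (by norm_num)]
    apply Real.log_le_log pA
    linarith
  have hLb0 : 0 ≤ Lb := by
    rw [hLb]
    apply Real.log_nonneg
    linarith
  have hLb1 : Lb ≤ L' := by
    rw [hLb, Real.log_div pA.ne' (by norm_num), ← hLdef]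
    linarith
  have hL : 4 * Real.log 2 ≤ L := by
    have h16 : 4 * Real.log 2 = Real.log 16 := by
      have : (16 : ℝ) = 2 ^ 4 := by norm_num
      rw [this, Real.log_pow]
      norm_num
    rw [h16, hLdef]
    exact Real.log_le_log (by norm_num) hA16'
  have l2 := Real.log_two_gt_d9
  have l2' := Real.log_two_lt_d9
  have h4 := Top_log_four
  have hL2 : 2 < L := by linarith
  have hL'1 : 1 < L' := by linarith
  have hlogL : 0 < Real.log L := Real.log_pos (by linarith)
  obtain ⟨s, hs0, hs1, hP1, hS1, hP2, hS2, hX, hZ⟩ := posSix hcard4 hA'pos hL'def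
  have t1 : ∀ h, Real.log (it al A' h).card ≤ Real.log (hsum A h).card := by
    intro h
    apply Real.log_le_log
    · exact_mod_cast card_pos.2 (it_nonempty hA'ne h)
    · exact_mod_cast it_al_card he hA'' h
  have t2 : ∀ k, Real.log (it be A' k).card ≤ Real.log (kprod A k).card := by
    intro k
    apply Real.log_le_log
    · exact_mod_cast card_pos.2 (it_nonempty hA'ne k)
    · exact_mod_cast it_be_card he hA'pos hA'' k
  have o1 : ∀ h, (1 : ℝ) ≤ (hsum A h).card := fun h => by exact_mod_cast card_hsum_pos hA h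
  have o2 : ∀ k, (1 : ℝ) ≤ (kprod A k).card := fun k => by exact_mod_cast card_kprod_pos hA k
  have hpb : (0 : ℝ) < (A.card : ℝ) / 4 := by positivity
  have triv : ∀ h : ℕ, 1 ≤ h → L ≤ Real.log (hsum A h).card := by
    intro h hh
    rw [hLdef]
    exact Real.log_le_log pA (by exact_mod_cast Top_card_le_hsum hA hh)
  refine ⟨s, hs0, hs1, ?_, ?_, ?_, ?_, ?_, ?_⟩
  · -- sums, logarithmic growth
    intro h hh hhL
    rw [← hLdef] at hhL ⊢
    apply pow_form pA hLdef (by linarith) le_rfl _ (o1 h)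
    have hlogh : 0 ≤ Real.log (h : ℝ) := Real.log_natCast_nonneg h
    rcases le_or_gt (s - 1024000000 / Real.log L) 0 with hc | hc
    · have h1 := triv h hh
      have h2 : 1 / 64000000 / 8 * (s - 1024000000 / Real.log L) * Real.log h * L ≤ 0 := by
        have h3 : (s - 1024000000 / Real.log L) * (Real.log h * L) ≤ 0 :=
          mul_nonpos_of_nonpos_of_nonneg hc (by positivity)
        linarith
      linarith
    · by_cases h1 : h = 1
      · subst h1
        have h2 := triv 1 le_rfl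
        simpa using h2
      have hsL : 1024000000 < s * Real.log L := by
        have h2 : 1024000000 / Real.log L < s := by linarith
        rwa [div_lt_iff₀ hlogL] at h2
      have e1 : Real.log L ≤ 2 * Real.log (2 + L') := by
        have h2 : Real.log L ≤ Real.log ((2 + L') ^ 2) := by
          apply Real.log_le_log (by linarith)
          nlinarith
        rwa [Real.log_pow, Nat.cast_ofNat] at h2
      have hsL' : 512000000 ≤ s * Real.log (2 + L') := by
        have := mul_le_mul_of_nonneg_left e1 hs0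
        linarith
      have hn1 : 1 ≤ Nat.log 2 h := Nat.log_pos (by norm_num) (by omega)
      have hpw : 2 ^ Nat.log 2 h ≤ h := Nat.pow_log_le_self 2 (by omega)
      have hpw' : ((2 : ℝ)) ^ Nat.log 2 h ≤ h := by exact_mod_cast hpw
      have hk1 := hS1 (by linarith) (Nat.log 2 h) (by nlinarith)
      have hmono : Real.log (it al A' (2 ^ Nat.log 2 h)).card ≤ Real.log (it al A' h).card := by
        apply Real.log_le_log
        · exact_mod_cast card_pos.2 (it_nonempty hA'ne _)
        · exact_mod_cast it_mono hA'ne hpw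
      have h3 := t1 h
      have h5 := Top_sum_num (c := 1 / 64000000) (s := s) (L := L) (L' := L')
        (S := Real.log (hsum A h).card) (n := (Nat.log 2 h : ℝ)) (lh := Real.log h)
        (by norm_num) (by
          have e2 : (8 : ℝ) / (1 / 64000000) = 512000000 := by norm_num
          rw [e2]
          exact hsL') hL hL' (by exact_mod_cast hn1) (Top_log_le hh) (by linarith)
      have h6 : 0 ≤ 1024000000 / Real.log L * (Real.log h * L) := by positivity
      linarith
  · -- sums, nearly full growth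
    intro h hh
    apply pow_form hpb hLb hLb0 hLb1 _ (o1 h)
    have h1 := hS2 h hh
    have h2 := t1 h
    have hhp : (0 : ℝ) < h := by exact_mod_cast hh
    have hh1 : (1 : ℝ) ≤ h := by exact_mod_cast hh
    have h3 : 0 ≤ (1 - s) * Real.log (h / (1 - s)) := by
      rcases hs1.lt_or_eq with h5 | h5
      · apply mul_nonneg (by linarith)
        apply Real.log_nonneg
        rw [le_div_iff₀ (by linarith)]
        linarith
      · rw [h5]
        simp
    have h6 : 0 ≤ (h : ℝ) * L' * ((1 - s) * Real.log (h / (1 - s))) := by positivity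
    linarith
  · -- products, logarithmic growth
    intro k hk
    apply pow_form hpb hLb hLb0 hLb1 _ (o2 k)
    have h1 := hP2 (Nat.log 2 k)
    have h2 := t2 k
    have hpw : 2 ^ Nat.log 2 k ≤ k := Nat.pow_log_le_self 2 (by omega)
    have hmono : Real.log (it be A' (2 ^ Nat.log 2 k)).card ≤ Real.log (it be A' k).card := by
      apply Real.log_le_log
      · exact_mod_cast card_pos.2 (it_nonempty hA'ne _)
      · exact_mod_cast it_mono hA'ne hpw
    have h3 := Top_log_le hk
    have h5 : Real.log k ≤ 2 * (Nat.log 2 k : ℝ) := by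
      have : 2 * (Nat.log 2 k : ℝ) * Real.log 2 ≤ 2 * (Nat.log 2 k : ℝ) * 1 :=
        mul_le_mul_of_nonneg_left (by linarith) (by positivity)
      linarith
    have h6 : (1 - s) * Real.log k * L' ≤ (1 - s) * (2 * (Nat.log 2 k : ℝ)) * L' := by
      apply mul_le_mul_of_nonneg_right _ (by linarith)
      exact mul_le_mul_of_nonneg_left h5 (by linarith)
    have h7 : 0 ≤ (1 - s) * (Nat.log 2 k : ℝ) * L' := by
      have h8 : 0 ≤ 1 - s := by linarith
      positivity
    linarith
  · -- products, nearly full growth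
    intro k hk
    apply pow_form hpb hLb hLb0 hLb1 _ (o2 k)
    have h1 := hP1 k hk
    have h2 := t2 k
    have hlogk : 0 ≤ Real.log (k : ℝ) := Real.log_natCast_nonneg k
    have h6 : 0 ≤ (k : ℝ) * L' * (s * Real.log k) := by positivity
    linarith
  · -- sums with an arbitrary set
    intro X hXne hXle
    obtain ⟨x, hx⟩ : ∃ x, x = Real.log (X.card : ℝ) := ⟨_, rfl⟩
    obtain ⟨S, hS⟩ : ∃ S, S = Real.log ((ssum X A).card : ℝ) := ⟨_, rfl⟩
    obtain ⟨D, hD⟩ : ∃ D, D = Real.log ((ssum X X).card : ℝ) := ⟨_, rfl⟩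
    have pX : (0 : ℝ) < X.card := by exact_mod_cast card_pos.2 hXne
    have cl := ssum_card_left (X := X) hA
    have cr := ssum_card_right (Y := A) hXne
    have cd := ssum_card_left (X := X) hXne
    have pS : (0 : ℝ) < (ssum X A).card := lt_of_lt_of_le pX (by exact_mod_cast cl)
    have pD : (0 : ℝ) < (ssum X X).card := lt_of_lt_of_le pX (by exact_mod_cast cd)
    have e1 : Real.log L ≤ 2 * Real.log (2 + L') := by
      have h2 : Real.log L ≤ Real.log ((2 + L') ^ 2) := by
        apply Real.log_le_log (by linarith)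
        nlinarith
      rwa [Real.log_pow, Nat.cast_ofNat] at h2
    have hxs : x ≤ 1 / 512000000 * s * Real.log L * L := by
      have h2 := Real.log_le_log pX hXle
      rw [Real.log_rpow pA, ← hLdef, ← hx] at h2
      linarith
    have hnum := scale_num (L := L) (L' := L') (s := s) (x := x) (S := S) (D := D) hL2 hL'1
      (by linarith) hs0 hs1 (by rw [hx]; exact Real.log_natCast_nonneg _)
      (by rw [hLdef, hS]; exact Real.log_le_log pA (by exact_mod_cast cr))
      (by rw [hx, hD]; exact Real.log_le_log pX (by exact_mod_cast cd)) e1 hxs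
      (by
        intro lam h0 h1
        rw [hx, hS, hD]
        exact sum_scale he hA'' hA'ne hXne (hX lam h0 h1 (sgn e X) (hXne.image _)))
    have h5 : Real.exp (S + D) = ((ssum X A).card : ℝ) * (ssum X X).card := by
      rw [Real.exp_add, hS, hD, Real.exp_log pS, Real.exp_log pD]
    have h6 : (X.card : ℝ) ^ 2 = Real.exp (x + x) := by
      rw [Real.exp_add, hx, Real.exp_log pX]
      ring
    rw [← h5, h6, Real.rpow_def_of_pos pA, ← hLdef, ← Real.exp_add]
    apply Real.exp_le_exp.2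
    have h7 : L * (1 / 64000000 / 8 * s) = 1 / 512000000 * s * L := by ring
    rw [h7]
    linarith
  · -- products with an arbitrary set
    intro Z hZne
    obtain ⟨z, hz, hz0⟩ := id hZne
    obtain ⟨y0, hy0⟩ := hA'ne
    have hp := prod_scale hA'pos he hA'' ⟨y0, hy0⟩ hZne
      (hZ (expo Z) ⟨_, mem_expo hz hz0⟩)
    have pZ : (0 : ℝ) < Z.card := by exact_mod_cast card_pos.2 ⟨z, hz⟩
    have pS : (0 : ℝ) < (sprod Z A).card := by
      have : (sprod Z A).Nonempty :=
        ⟨_, mem_image.2 ⟨(z, e * (y0 : ℤ)), mem_product.2 ⟨hz, hA'' _ hy0⟩, rfl⟩⟩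
      exact_mod_cast card_pos.2 this
    have pD : (0 : ℝ) < (sprod Z Z).card := by
      have : (sprod Z Z).Nonempty := ⟨_, mem_image.2 ⟨(z, z), mem_product.2 ⟨hz, hz⟩, rfl⟩⟩
      exact_mod_cast card_pos.2 this
    obtain ⟨x, hx⟩ : ∃ x, x = Real.log (Z.card : ℝ) := ⟨_, rfl⟩
    obtain ⟨S, hS⟩ : ∃ S, S = Real.log ((sprod Z A).card : ℝ) := ⟨_, rfl⟩
    obtain ⟨D, hD⟩ : ∃ D, D = Real.log ((sprod Z Z).card : ℝ) := ⟨_, rfl⟩
    rw [← hx, ← hS, ← hD] at hp
    have h5 : Real.exp (Real.log 3 + Real.log 3 + (S + D)) =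
        9 * (((sprod Z A).card : ℝ) * (sprod Z Z).card) := by
      rw [Real.exp_add, Real.exp_add, Real.exp_add, hS, hD, Real.exp_log pS, Real.exp_log pD,
        Real.exp_log (by norm_num)]
      ring
    have h6 : (Z.card : ℝ) ^ 2 = Real.exp (x + x) := by
      rw [Real.exp_add, hx, Real.exp_log pZ]
      ring
    rw [← h5, h6, Real.rpow_def_of_pos hpb, ← hLb, ← Real.exp_add]
    apply Real.exp_le_exp.2
    have h7 : Lb * (1 / 64000000 / 8 * (1 - s)) ≤ (1 - s) * L' / 16000000 := by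
      have h8 : (1 - s) * Lb ≤ (1 - s) * L' := mul_le_mul_of_nonneg_left hLb1 (by linarith)
      have h9 : 0 ≤ (1 - s) * Lb := mul_nonneg (by linarith) hLb0
      linarith
    linarith

end Pool.Agent.Helper88.ONE
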