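import Pool.Agent.Helper2.LD.Four
import Pool.Agent.Helper88.ONE.OneScale

set_option autoImplicit false

/-!
MP_120218_co: one number bounds the growth of sums and products; positive integers, with the
forms for arbitrary sets `X` and `Z`.
-/

open Finset
open Pool.Agent.Helper84.SP
open Pool.Agent.Helper80.LL
open Pool.Agent.Helper88.PP
open Pool.Agent.Helper88.TL
open Pool.Agent.Helper2.LD

namespace Pool.Agent.Helper88.ONE

/-- the error term of the small primes -/
theorem err_le {L s lam b : ℝ} (hL : 1 < L) (hs : 0 < s)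
    (h1 : 16000 * b ≤ s * Real.log (2 + L)) (hb0 : 1 ≤ b) (hlam : lam = s / (8 * b)) :
    Real.log (576 / lam ^ 2) * ((Q0 (100 / lam) : ℝ) + 1) ≤ s * L / 4 := by
  obtain ⟨l, hl⟩ : ∃ l : ℝ, l = Real.log (2 + L) := ⟨_, rfl⟩
  rw [← hl] at h1
  have hbp : 0 < b := by linarith
  have hl0 : 0 < l := by
    rw [hl]
    exact Real.log_pos (by linarith)
  have hexp : Real.exp l = 2 + L := by
    rw [hl, Real.exp_log (by linarith)]
  have hlamp : 0 < lam := by rw [hlam]; positivity
  obtain ⟨B, hB⟩ : ∃ B : ℝ, B = 100 / lam := ⟨_, rfl⟩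
  have hBp : 0 < B := by rw [hB]; positivity
  have hB2 : B = 800 * b / s := by
    rw [hB, hlam]
    field_simp
    ring
  have hBl : B ≤ l / 16 := by
    rw [hB2, div_le_iff₀ hs]
    linarith
  rw [← hB]
  -- the logarithm
  have h24 : 24 / lam = 24 / 100 * B := by
    rw [hB]
    field_simp
  have hlog : Real.log (576 / lam ^ 2) ≤ l / 8 := by
    have h2 : (576 : ℝ) / lam ^ 2 = (24 / lam) ^ 2 := by
      rw [div_pow]
      norm_num
    have h3 : Real.log (24 / lam) ≤ 24 / lam - 1 :=
      Real.log_le_sub_one_of_pos (by positivity)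
    rw [h2, Real.log_pow]
    push_cast
    linarith
  have hQ : (Q0 B : ℝ) + 1 ≤ 9 * Real.exp (2 * B) := by
    unfold Q0
    push_cast
    have h2 := Nat.ceil_lt_add_one (show 0 ≤ 6 * Real.exp (2 * B) by positivity)
    have h3 : 1 ≤ Real.exp (2 * B) := Real.one_le_exp (by positivity)
    linarith
  have hE : Real.exp (2 * B) ≤ Real.exp (l / 8) := Real.exp_le_exp.2 (by linarith)
  have hG : Real.log (576 / lam ^ 2) * ((Q0 B : ℝ) + 1) ≤ l / 8 * (9 * Real.exp (l / 8)) := by
    refine mul_le_mul hlog (by linarith) (by positivity) (by positivity)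
  refine hG.trans ?_
  -- `9 l exp (l / 8) / 8 ≤ s L / 4`
  have hq := Real.quadratic_le_exp_of_nonneg (show 0 ≤ l / 2 by positivity)
  have hq2 : l * l ≤ 8 * Real.exp (l / 2) := by nlinarith
  have h5 : l * l * Real.exp (l / 8) ≤ 8 * Real.exp l := by
    calc l * l * Real.exp (l / 8) ≤ 8 * Real.exp (l / 2) * Real.exp (l / 8) :=
          mul_le_mul_of_nonneg_right hq2 (Real.exp_pos _).le
      _ = 8 * Real.exp (l / 2 + l / 8) := by rw [Real.exp_add]; ring
      _ ≤ 8 * Real.exp l := by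
          have : Real.exp (l / 2 + l / 8) ≤ Real.exp l := Real.exp_le_exp.2 (by linarith)
          linarith
  rw [hexp] at h5
  have h6 : l * (l / 8 * (9 * Real.exp (l / 8))) ≤ l * (s * L / 4) := by
    have h7 : 16000 * L ≤ s * l * L := mul_le_mul_of_nonneg_right (by linarith) (by linarith)
    have e1 : l * (l / 8 * (9 * Real.exp (l / 8))) = 9 / 8 * (l * l * Real.exp (l / 8)) := by
      ring
    have e2 : l * (s * L / 4) = s * l * L / 4 := by ring
    rw [e1, e2]
    linarith
  exact le_of_mul_le_mul_left h6 hl0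

/-- the numerical part of the form for arbitrary `X` -/
theorem scale_num {L L' s x S D : ℝ} (hL : 2 < L) (hL'1 : 1 < L') (hLL : L ≤ 2 * L')
    (hs0 : 0 ≤ s) (hs1 : s ≤ 1) (hx : 0 ≤ x) (hSL : L ≤ S) (hD : x ≤ D)
    (hlog : Real.log L ≤ 2 * Real.log (2 + L'))
    (hxs : x ≤ 1 / 512000000 * s * Real.log L * L)
    (hmain : ∀ lam : ℝ, 0 < lam → lam ≤ 1 → s * L' ≤ 16000000 * ((S - x) + (D - x)) +
      2 * lam * x + Real.log (576 / lam ^ 2) * ((Q0 (100 / lam) : ℝ) + 1)) :
    2 * x + 1 / 512000000 * s * L ≤ S + D := by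
  have hL0 : 0 < L := by linarith
  have hL'0 : 0 < L' := by linarith
  have hlogL : 0 < Real.log L := Real.log_pos (by linarith)
  rcases le_or_gt x (L / 2) with hx2 | hx2
  · have h1 : s * L ≤ 1 * L := mul_le_mul_of_nonneg_right hs1 (by linarith)
    linarith
  · have hsp : 0 < s := by
      rcases hs0.lt_or_eq with h | h
      · exact h
      · rw [← h] at hxs
        linarith
    obtain ⟨b, hb⟩ : ∃ b : ℝ, b = max 1 (x / L') := ⟨_, rfl⟩
    have hb1 : 1 ≤ b := by rw [hb]; exact le_max_left _ _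
    have hb2 : x ≤ b * L' := by
      have h1 : x / L' ≤ b := by rw [hb]; exact le_max_right _ _
      rwa [div_le_iff₀ (by linarith)] at h1
    have h1 : b ≤ 2 * (x / L) := by
      rw [hb]
      apply max_le
      · have h2 : 1 / 2 ≤ x / L := by
          rw [le_div_iff₀ hL0]
          linarith
        linarith
      · have h2 : 2 * (x / L) = 2 * x / L := by ring
        rw [h2, div_le_div_iff₀ hL'0 hL0]
        have := mul_le_mul_of_nonneg_left hLL hx
        linarith
    have hxL : x / L ≤ 1 / 512000000 * s * Real.log L := by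
      rw [div_le_iff₀ hL0]
      exact hxs
    have hsl := mul_le_mul_of_nonneg_left hlog hs0
    have hslp : 0 ≤ s * Real.log L := by positivity
    have hc : 16000 * b ≤ s * Real.log (2 + L') := by linarith
    obtain ⟨lam, hlam⟩ : ∃ lam : ℝ, lam = s / (8 * b) := ⟨_, rfl⟩
    have hlam0 : 0 < lam := by rw [hlam]; positivity
    have hlam1 : lam ≤ 1 := by
      rw [hlam, div_le_one (by positivity)]
      linarith
    have herr := err_le hL'1 hsp hc hb1 hlam
    have h1 := hmain lam hlam0 hlam1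
    have h2 : 2 * lam * x ≤ s * L' / 4 := by
      have h3 : 2 * lam * x ≤ 2 * lam * (b * L') :=
        mul_le_mul_of_nonneg_left hb2 (by positivity)
      have h4 : 2 * lam * (b * L') = s * L' / 4 := by
        rw [hlam]
        field_simp
        ring
      linarith
    have h3 : s * L ≤ s * (2 * L') := mul_le_mul_of_nonneg_left hLL hs0
    have h4 : 0 ≤ s * L := by positivity
    linarith

/-- positive integers: one number `s` controls everything; forms for arbitrary `X` and `Z` -/
theorem posSix {A : Finset ℕ} (hA4 : 4 ≤ A.card) (hpos : ∀ y ∈ A, 0 < y) {L : ℝ}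
    (hL : L = Real.log A.card) :
    ∃ s : ℝ, 0 ≤ s ∧ s ≤ 1 ∧
      (∀ k : ℕ, 2 ≤ k → k * L * (1 - 13 * s * Real.log k) ≤ Real.log (it be A k).card) ∧
      (16000 ≤ s * Real.log (2 + L) → ∀ n : ℕ, (2 : ℝ) ^ n ≤ (2 + L) ^ 2 →
        (1 + 1 / 64000000 * s * n) * L ≤ Real.log (it al A (2 ^ n)).card) ∧
      (∀ n : ℕ, (1 + 1 / 32000000 * (1 - s) * n) * L ≤ Real.log (it be A (2 ^ n)).card) ∧
      (∀ h : ℕ, 1 ≤ h → h * L * (1 - 33 * (1 - s) * Real.log (h / (1 - s))) ≤
        Real.log (it al A h).card) ∧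
      (∀ lam : ℝ, 0 < lam → lam ≤ 1 → ∀ X : Finset ℤ, X.Nonempty →
        s * L ≤ 8000000 * (I al X A + I al X A + dd X X) + 2 * lam * Real.log X.card +
          Real.log (576 / lam ^ 2) * ((Q0 (100 / lam) : ℝ) + 1)) ∧
      (∀ Z : Finset (ℕ →₀ ℤ), Z.Nonempty →
        (1 - s) * L ≤ 8000000 * (I be Z A + I be Z A + dd Z Z)) := by
  have hA : A.Nonempty := card_pos.1 (by omega)
  have hAc : (4 : ℝ) ≤ A.card := by exact_mod_cast hA4
  have hL1 : 1 < L := by
    rw [hL]
    have h2 : Real.log 4 ≤ Real.log A.card := Real.log_le_log (by norm_num) hAc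
    have h3 : Real.log 4 = 2 * Real.log 2 := by
      rw [show (4 : ℝ) = 2 ^ 2 by norm_num, Real.log_pow]; norm_num
    have h4 := Real.log_two_gt_d9
    linarith
  have hL0 : 0 < L := by linarith
  obtain ⟨ps, hprime, hnd, hdet⟩ := exists_primes hpos
  obtain ⟨Φ, hΦ⟩ : ∃ Φ : ℝ, Φ = Psi ps A / A.card := ⟨_, rfl⟩
  have hΦ0 : 0 ≤ Φ := by rw [hΦ]; exact div_nonneg (Psi_nonneg ps A) (Nat.cast_nonneg _)
  have hF := Helper2.LD.Fd_nonneg ps A hA
  have hFd : Fd ps A = L - Φ := by
    unfold Fd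
    rw [← hL, ← hΦ]
  rw [hFd] at hF
  obtain ⟨s, hs⟩ : ∃ s : ℝ, s = Φ / L := ⟨_, rfl⟩
  have hsL : s * L = Φ := by
    rw [hs]
    field_simp
  have hs0 : 0 ≤ s := by rw [hs]; positivity
  have hs1 : s ≤ 1 := by
    rw [hs, div_le_one hL0]
    linarith
  refine ⟨s, hs0, hs1, ?_, ?_, ?_, ?_, ?_, ?_⟩
  · intro k hk
    have hk2 : (2 : ℝ) ≤ k := by exact_mod_cast hk
    have hlk : Real.log 2 ≤ Real.log k := Real.log_le_log (by norm_num) hk2
    have hl2 := Real.log_two_gt_d9
    have h1 := prod_side hk hA hpos ps hdet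
    rw [← hL, ← hΦ, ← hsL] at h1
    have h3 : (2 * Real.log k + 7) * (s * L) ≤ 13 * Real.log k * (s * L) :=
      mul_le_mul_of_nonneg_right (by linarith) (by positivity)
    have h4 := mul_le_mul_of_nonneg_left h3 (show (0 : ℝ) ≤ k by positivity)
    linarith
  · intro hcase n hn
    apply sums_grow hA hL (Φ := Φ) _ hsL.le hs0 hs1 hcase hL1 hn
    intro lam h0 h1 j hj
    rw [hΦ]
    exact Helper80.LL.sumKey hA hpos hprime hnd h0 h1 hj
  · intro n
    have h1 := pay_pow hprime hA hpos hdet n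
    rw [← hL, ← hΦ, ← hsL] at h1
    refine le_trans (le_of_eq ?_) h1
    ring
  · intro h hh
    apply yield_pow hA hh hL hL1 (by linarith) (by linarith) (F := L - Φ) (by rw [← hsL]; ring)
    · have h2 := it_card_ge (α := al) hA (fun a _ b _ h => by
        have h3 : (a : ℤ) = b := h
        exact_mod_cast h3) hh
      rw [hL]
      exact Real.log_le_log (by linarith) (by exact_mod_cast h2)
    · intro δ hδ0 hδ1
      have h1 := sum_yield_it hprime hA hpos hh hδ0 hδ1
      rw [hFd, ← hL] at h1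
      exact h1
  · intro lam h0 h1 X hX
    have hm := mainLL h0 h1 ps hprime A hA hpos X X hX hX
    have hG0 : 0 ≤ Real.log (576 / lam ^ 2) := by
      apply Real.log_nonneg
      rw [le_div_iff₀ (by positivity)]
      nlinarith
    have e2 := mul_le_mul_of_nonneg_left (cnt_le hnd (Q0 (100 / lam))) hG0
    unfold W at hm
    rw [← hΦ, ← hsL] at hm
    linarith
  · intro Z hZ
    have h1 := pay hprime hA hpos hdet hZ hZ
    rw [← hL, ← hΦ, ← hsL] at h1
    linarith

end Pool.Agent.Helper88.ONE
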